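import Pool.Agent.Lib.MP_7f190d_al.H69.SCommon

/-!
# MP_7f190d_al, project Burnside: S5 (Claim U)
-/

set_option autoImplicit false

namespace Pool.Agent.Lib.MP_7f190d_al

open SC

/-- S5: an element outside `⟨z⟩` fixes at most one apex. -/
theorem S5_of (hS1 : S1Statement) (hS2 : S2Statement) : S5Statement := by
  classical
  intro C g i₁ j₁ hg hi₁ hj₁
  have hF := facts hS1 C
  have hD := SC.hD C
  have hρ := C.hρ
  by_contra hne₁
  -- minimal distance
  have hex : ∃ m, ∃ i j : C.J, g • C.p (C.apex i) = C.p (C.apex i) ∧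
      g • C.p (C.apex j) = C.p (C.apex j) ∧ C.p (C.apex i) ≠ C.p (C.apex j) ∧
      C.M'.d (C.p (C.apex i)) (C.p (C.apex j)) = m := ⟨_, i₁, j₁, hi₁, hj₁, hne₁, rfl⟩
  obtain ⟨m, ⟨i, j, hi, hj, hne, hm⟩, hmin⟩ : ∃ m, (∃ i j : C.J,
      g • C.p (C.apex i) = C.p (C.apex i) ∧
      g • C.p (C.apex j) = C.p (C.apex j) ∧ C.p (C.apex i) ≠ C.p (C.apex j) ∧
      C.M'.d (C.p (C.apex i)) (C.p (C.apex j)) = m) ∧ ∀ i j : C.J,
      g • C.p (C.apex i) = C.p (C.apex i) → g • C.p (C.apex j) = C.p (C.apex j) →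
      C.p (C.apex i) ≠ C.p (C.apex j) → m ≤ C.M'.d (C.p (C.apex i)) (C.p (C.apex j)) :=
    ⟨Nat.find hex, Nat.find_spec hex, fun i j h1 h2 h3 =>
      Nat.find_min' hex ⟨i, j, h1, h2, h3, rfl⟩⟩
  have hm2 := hF.apex_apex i j hne
  obtain ⟨γ', hγ'⟩ := C.M'.exists_isGeod (C.p (C.apex i)) (C.p (C.apex j))
  obtain ⟨γ, g0, g1, g2⟩ := hF.geod (C.apex i) (C.p (C.apex j)) γ' hγ'
  rw [hm] at g1 g2 hm2
  -- the end of the lift is an apex
  obtain ⟨j', hj', hd⟩ := hF.near (γ m) j
  have hend : C.p (γ m) = C.p (C.apex j) := by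
    rw [g1 m le_rfl, ← hm]; exact hγ'.2.1
  rw [hend, C.M'.self] at hd
  have hγm : γ m = C.apex j' := C.MV.eq0 _ _ hd
  -- all the points are moved little
  have hmove : ∀ s ≤ m, C.M'.d (C.p (γ s)) (g • C.p (γ s)) ≤ 4 * C.D := by
    intro s hs
    rw [g1 s hs]
    have hb := hγ'.btw (i := s) (by omega)
    have := moved_le C.hyp' hF.iso g (B := 0) (by rw [hi, C.M'.self]) (by rw [hj, C.M'.self]) hb
    omega
  -- no apex is close to the middle part
  have hfar : ∀ s, 10004 * C.D + 2 ≤ s → s + (10004 * C.D + 2) ≤ m →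
      ∀ l, 10004 * C.D + 2 ≤ C.MV.d (γ s) (C.apex l) := by
    intro s hs1 hs2 l
    by_contra hl
    have hl' : C.MV.d (γ s) (C.apex l) ≤ 10004 * C.D + 1 := by omega
    have hfix := hF.fixed g (γ s) l hl' ((hmove s (by omega)).trans (by omega))
    have hle := (C.quot.dle (γ s) (C.apex l)).trans hl'
    have e1 := hγ'.dist_left (i := s) (by omega)
    have e2 := hγ'.dist_right (i := s) (by omega)
    have hps := g1 s (by omega)
    rw [hps] at hle
    by_cases hP : C.p (C.apex i) = C.p (C.apex l)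
    · rw [← hP, C.M'.symm] at hle
      omega
    · have h1 := hmin i l hi hfix hP
      have t := C.M'.tri (C.p (C.apex i)) (γ' s) (C.p (C.apex l))
      omega
  obtain ⟨f, hf, hfa⟩ := hF.lift g (γ (10004 * C.D + 2))
  have hf0 : C.MV.d (γ (10004 * C.D + 2)) (f • γ (10004 * C.D + 2)) ≤ 10004 * C.D := by
    rw [hfa]; exact (hmove _ (by omega)).trans (by omega)
  have hall := hS2 C g f (m - 2 * (10004 * C.D + 2)) (fun s => γ (10004 * C.D + 2 + s)) hf
    (by
      intro s hs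
      show C.MV.d (γ (10004 * C.D + 2 + s)) (γ (10004 * C.D + 2 + (s + 1))) ≤ 1
      rw [g2 _ _ (by omega) (by omega)]
      omega)
    (by
      intro s hs l
      exact hfar _ (by omega) (by omega) l)
    (by
      intro s hs
      exact (hmove _ (by omega)).trans (by omega))
    (by simpa using hf0)
  -- `f` fixes both apexes
  have hfi : f • i = i := by
    refine fix_of_near f i (γ (10004 * C.D + 2)) ?_ hf0
    rw [← g0, C.MV.symm, g2 0 _ (by omega) (by omega)]
    omega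
  have hfj : f • j' = j' := by
    have h := hall (m - 2 * (10004 * C.D + 2)) le_rfl
    replace h : C.MV.d (γ (10004 * C.D + 2 + (m - 2 * (10004 * C.D + 2))))
        (f • γ (10004 * C.D + 2 + (m - 2 * (10004 * C.D + 2)))) ≤ 10004 * C.D := h
    have e : 10004 * C.D + 2 + (m - 2 * (10004 * C.D + 2)) = m - (10004 * C.D + 2) := by omega
    rw [e] at h
    refine fix_of_near f j' (γ (m - (10004 * C.D + 2))) ?_ h
    rw [← hγm, g2 _ _ (by omega) (by omega)]
    omega
  have hfz : f ∉ Subgroup.zpowers C.z := by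
    intro hmem
    apply hg
    obtain ⟨k, hk⟩ := Subgroup.mem_zpowers_iff.mp hmem
    exact Subgroup.mem_zpowers_iff.mpr ⟨k, by rw [← map_zpow, hk, hf]⟩
  have hij : i = j' := C.js.uniq i j' f hfz ((C.js.stab f i).mp hfi) ((C.js.stab f j').mp hfj)
  have : C.MV.d (γ 0) (γ m) = m := by simpa using g2 0 m (by omega) le_rfl
  rw [g0, hγm, hij, C.MV.self] at this
  omega

end Pool.Agent.Lib.MP_7f190d_al
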