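import Pool.Agent.Lib.MP_7f190d_al.H69.SCommon

/-!
# MP_7f190d_al, project Burnside: S6 (Claim F)
-/

set_option autoImplicit false

namespace Pool.Agent.Lib.MP_7f190d_al

open SC

/-- S6: points which are moved little by a rotation are close to the apex. -/
theorem S6_of (hS1 : S1Statement) (hS2 : S2Statement) (hS5 : S5Statement)
    (hW6 : W6Statement) : S6Statement := by
  intro C g j x hg hj hx
  have hF := facts hS1 C
  have hD := SC.hD C
  have hρ := C.hρ
  by_contra hcon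
  obtain ⟨γ', hγ'⟩ := C.M'.exists_isGeod (C.p (C.apex j)) x
  obtain ⟨m, hm⟩ : ∃ m, m = C.M'.d (C.p (C.apex j)) x := ⟨_, rfl⟩
  have hm3 : 3 * C.ρ + 10004 * C.D * 2 ^ (10004 * C.D) + 10 < m := by
    rw [hm, C.M'.symm]; omega
  obtain ⟨γ, g0, g1, g2⟩ := hF.geod (C.apex j) x γ' hγ'
  rw [← hm] at g1 g2
  have hmove : ∀ s ≤ m, C.M'.d (C.p (γ s)) (g • C.p (γ s)) ≤ 10004 * C.D := by
    intro s hs
    rw [g1 s hs]
    have hb := hγ'.btw (i := s) (by omega)
    have := moved_le C.hyp' hF.iso g (B := 10000 * C.D) (by rw [hj, C.M'.self]; omega) hx hb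
    omega
  have hfar : ∀ s, 10004 * C.D + 2 ≤ s → s ≤ m →
      ∀ l, 10004 * C.D + 2 ≤ C.MV.d (γ s) (C.apex l) := by
    intro s hs1 hs2 l
    by_contra hl
    have hl' : C.MV.d (γ s) (C.apex l) ≤ 10004 * C.D + 1 := by omega
    have hfix := hF.fixed g (γ s) l hl' (hmove s hs2)
    have hP := hS5 C g j l hg hj hfix
    have hle := (C.quot.dle (γ s) (C.apex l)).trans hl'
    have e1 := hγ'.dist_left (i := s) (by omega)
    rw [g1 s hs2, ← hP, C.M'.symm] at hle
    omega
  obtain ⟨f, hf, hfa⟩ := hF.lift g (γ (10004 * C.D + 2))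
  have hf0 : C.MV.d (γ (10004 * C.D + 2)) (f • γ (10004 * C.D + 2)) ≤ 10004 * C.D := by
    rw [hfa]; exact hmove _ (by omega)
  have hall := hS2 C g f (m - (10004 * C.D + 2)) (fun s => γ (10004 * C.D + 2 + s)) hf
    (by
      intro s hs
      show C.MV.d (γ (10004 * C.D + 2 + s)) (γ (10004 * C.D + 2 + (s + 1))) ≤ 1
      rw [g2 _ _ (by omega) (by omega)]
      omega)
    (by
      intro s hs l
      exact hfar _ (by omega) (by omega) l)
    (by
      intro s hs
      exact hmove _ (by omega))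
    (by simpa using hf0)
  have hfj : f • j = j := by
    refine fix_of_near f j (γ (10004 * C.D + 2)) ?_ hf0
    rw [← g0, C.MV.symm, g2 0 _ (by omega) (by omega)]
    omega
  have hfz : f ∉ Subgroup.zpowers C.z := by
    intro hmem
    apply hg
    obtain ⟨k, hk⟩ := Subgroup.mem_zpowers_iff.mp hmem
    exact Subgroup.mem_zpowers_iff.mpr ⟨k, by rw [← map_zpow, hk, hf]⟩
  -- a base vertex close to the end
  obtain ⟨i, him, hi, x₁, hx₁⟩ := base_last g2 (by omega)
  have hmv : C.MV.d (C.base x₁) (f • C.base x₁) ≤ 10004 * C.D := by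
    have h := hall (i - (10004 * C.D + 2)) (by omega)
    replace h : C.MV.d (γ (10004 * C.D + 2 + (i - (10004 * C.D + 2))))
        (f • γ (10004 * C.D + 2 + (i - (10004 * C.D + 2)))) ≤ 10004 * C.D := h
    have e : 10004 * C.D + 2 + (i - (10004 * C.D + 2)) = i := by omega
    rwa [e, hx₁] at h
  have hR := base_moved f x₁ hmv
  obtain ⟨K, hK1, hK2⟩ := C.hlog
  obtain ⟨y, hy1, hy2⟩ := hW6 C.Γ C.z C.X C.M C.D (10000 * C.D) C.S C.T C.st.toPreStage C.J C.h
    C.js j f x₁ _ K ((C.js.stab f j).mp hfj) hfz hR hK1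
  have hS' := C.hS'
  have hS2' := C.hS
  have hdy : C.MV.d (C.base x₁) (C.base y) ≤ 10004 * C.D * 2 ^ (10004 * C.D) + 2 := by
    by_contra hlt
    have h1 := base_dist x₁ y (10004 * C.D * 2 ^ (10004 * C.D) + 3) (by omega)
    have h2 : C.S * (10004 * C.D * 2 ^ (10004 * C.D) + 3) =
      10004 * C.D * 2 ^ (10004 * C.D) * C.S + 3 * C.S := by ring
    rw [h2] at h1
    omega
  have hya := C.Y_apex j y hy1
  have t := C.MV.tri (C.base x₁) (C.base y) (C.apex j)
  have e : C.MV.d (C.base x₁) (C.apex j) = i := by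
    rw [← hx₁, ← g0, C.MV.symm, g2 0 i (by omega) him]
    omega
  omega

end Pool.Agent.Lib.MP_7f190d_al
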