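import Pool.Agent.Lib.MP_7f190d_al.Basic

/-!
# MP_7f190d_al, project Burnside: lemmas shared by the modules S-C and S-D
-/

set_option autoImplicit false

namespace Pool.Agent.Lib.MP_7f190d_al

namespace SC

/-- A point between two points which are moved by at most `B` is moved by at most `B + 4 * δ`. -/
lemma moved_le {G V : Type} [Group G] [MulAction G V] {M : GMet V} {δ : ℕ} (hM : M.Hyp δ)
    (hI : Iso G M) (g : G) {x y w : V} {B : ℕ} (hx : M.d x (g • x) ≤ B)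
    (hy : M.d y (g • y) ≤ B) (hw : M.Btw x w y) : M.d w (g • w) ≤ B + 4 * δ := by
  have hw' : M.Btw (g • x) (g • w) (g • y) := by
    have h : M.d x w + M.d w y = M.d x y := hw
    show M.d (g • x) (g • w) + M.d (g • w) (g • y) = M.d (g • x) (g • y)
    rw [hI, hI, hI]; exact h
  have t1 := M.tri x y (g • y)
  have t2 := M.tri y x (g • x)
  have s := M.symm y x
  exact GMet.B3 V M δ hM x y (g • x) (g • y) w (g • w) B hw hw' (hI g x w).symm (hI g w y).symm
    (by omega) (by omega) (by omega) (by omega)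

/-- The statement S1 as a structure. -/
structure Facts (C : Ctx) : Prop where
  central : ∀ g, g * C.π C.z = C.π C.z * g
  inf : ∀ m : ℤ, (C.π C.z) ^ m = 1 → m = 0
  iso : Iso C.Γ' C.M'
  ztriv : ∀ v : C.V', C.π C.z • v = v
  apex_apex : ∀ i j, C.p (C.apex i) ≠ C.p (C.apex j) →
    2 * C.ρ + 2 ≤ C.M'.d (C.p (C.apex i)) (C.p (C.apex j))
  stab : ∀ (g : C.Γ') j, g • C.p (C.apex j) = C.p (C.apex j) →
    g ∈ Subgroup.zpowers (C.π (C.h j))
  almost : ∀ (g : C.Γ') j a, C.M'.d a (C.p (C.apex j)) ≤ 10004 * C.D + 1 →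
    C.M'.d a (g • a) ≤ 10004 * C.D → g • C.p (C.apex j) = C.p (C.apex j)
  lift : ∀ (g : C.Γ') (a : C.V), ∃ f : C.Γ, C.π f = g ∧
    C.MV.d a (f • a) = C.M'.d (C.p a) (g • C.p a)
  uniq : ∀ (f f' : C.Γ) (a : C.V), C.π f = C.π f' →
    (∀ j, 10004 * C.D + 2 ≤ C.MV.d a (C.apex j)) →
    C.MV.d (f • a) (f' • a) ≤ 2 * (10004 * C.D) + 3 → f = f'
  near : ∀ (a : C.V) j, ∃ i, C.p (C.apex i) = C.p (C.apex j) ∧
    C.MV.d a (C.apex i) = C.M'.d (C.p a) (C.p (C.apex j))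
  geod : ∀ (a : C.V) (v : C.V') (γ' : ℕ → C.V'), C.M'.IsGeod γ' (C.p a) v → ∃ γ : ℕ → C.V,
    γ 0 = a ∧ (∀ i ≤ C.M'.d (C.p a) v, C.p (γ i) = γ' i) ∧
    (∀ i j, i ≤ j → j ≤ C.M'.d (C.p a) v → C.MV.d (γ i) (γ j) = j - i)

lemma facts (hS1 : S1Statement) (C : Ctx) : Facts C := by
  obtain ⟨h1, h2, h3, h4, h5, h6, h7, h8, h9, h10, h11⟩ := hS1 C
  exact ⟨h1, h2, h3, h4, h5, h6, h7, h8, h9, h10, h11⟩

variable {C : Ctx}

lemma hD (C : Ctx) : 1 ≤ C.D := C.st.hD

/-- a base vertex which is moved little in the coned off graph -/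
lemma base_moved (f : C.Γ) (x : C.X)
    (h : C.MV.d (C.base x) (f • C.base x) ≤ 10004 * C.D) :
    C.M.d x (f • x) ≤ 10004 * C.D * 2 ^ (10004 * C.D) * C.S := by
  rw [C.base_eqv] at h
  exact C.base_lower x (f • x) _ (by have := C.hρ; omega) h

/-- there is a base vertex among the first `2 * ρ + 2` points -/
lemma base_first {m : ℕ} {γ : ℕ → C.V}
    (hγ : ∀ i j, i ≤ j → j ≤ m → C.MV.d (γ i) (γ j) = j - i) (hm : 2 * C.ρ + 1 ≤ m) :
    ∃ i ≤ 2 * C.ρ + 1, ∃ x, γ i = C.base x := by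
  have h0 : C.MV.d (γ 0) (γ m) = m := by simpa using hγ 0 m (by omega) le_rfl
  exact C.geod_base (γ 0) (γ m) (by omega) γ ⟨rfl, by rw [h0], by rw [h0]; exact hγ⟩

/-- there is a base vertex among the last `2 * ρ + 2` points -/
lemma base_last {m : ℕ} {γ : ℕ → C.V}
    (hγ : ∀ i j, i ≤ j → j ≤ m → C.MV.d (γ i) (γ j) = j - i) (hm : 2 * C.ρ + 1 ≤ m) :
    ∃ i ≤ m, m ≤ i + (2 * C.ρ + 1) ∧ ∃ x, γ i = C.base x := by
  have hγ' : ∀ i j, i ≤ j → j ≤ m →
      C.MV.d ((fun i => γ (m - i)) i) ((fun i => γ (m - i)) j) = j - i := by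
    intro i j hij hj
    show C.MV.d (γ (m - i)) (γ (m - j)) = j - i
    rw [C.MV.symm, hγ (m - j) (m - i) (by omega) (by omega)]
    omega
  obtain ⟨i, hi, x, hx⟩ := base_first hγ' hm
  exact ⟨m - i, by omega, by omega, x, hx⟩

/-- distances of base vertices on a geodesic -/
lemma base_dist (x x' : C.X) (k : ℕ) (h : k ≤ C.MV.d (C.base x) (C.base x')) :
    C.S * k ≤ C.M.d x x' + (C.S - 1) :=
  (Nat.mul_le_mul_left _ h).trans (C.base_upper x x')

/-- an element which almost fixes a point close to an apex fixes this apex -/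
lemma fix_of_near (f : C.Γ) (j : C.J) (v : C.V)
    (h1 : C.MV.d v (C.apex j) ≤ 10004 * C.D + 2) (h2 : C.MV.d v (f • v) ≤ 10004 * C.D) :
    f • j = j := by
  by_contra hne
  have h3 := C.apex_apex (f • j) j hne
  rw [← C.apex_eqv] at h3
  have t1 := C.MV.tri (f • C.apex j) (f • v) (C.apex j)
  have t2 := C.MV.tri (f • v) v (C.apex j)
  have e1 := C.isoV f (C.apex j) v
  have s1 := C.MV.symm (C.apex j) v
  have s2 := C.MV.symm (f • v) v
  have hρ := C.hρ
  have hD := hD C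
  omega

/-- an element which moves a point close to an apex little fixes the image of this apex -/
lemma Facts.fixed (hF : Facts C) (g : C.Γ') (v : C.V) (j : C.J)
    (h1 : C.MV.d v (C.apex j) ≤ 10004 * C.D + 1)
    (h2 : C.M'.d (C.p v) (g • C.p v) ≤ 10004 * C.D) :
    g • C.p (C.apex j) = C.p (C.apex j) :=
  hF.almost g j (C.p v) ((C.quot.dle _ _).trans h1) h2

end SC

end Pool.Agent.Lib.MP_7f190d_al
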